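import Pool.Agent.H961C9.Prog

/-!
Narrow progressions of windows with exactly known primes in positions of a given set, the index of the
first prime in a given class; the difference is divisible by a given number.
-/

set_option autoImplicit false

namespace Pool.Agent.H961C1

open Finset Filter Polynomial
open Pool.Agent.R498.MP (AP stringsCR)
open Pool.Agent.H961C9 (vdw nth_window)

/-- Windows with exactly known primes, in narrow progressions, with prescribed index class. -/
theorem windows (f : ℤ[X]) (hz : ∀ n : ℤ, n ≠ 0 → f.eval n ≠ 0)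
    (hadm : ∀ p : ℕ, p.Prime → ∃ n : ℤ, ¬ (p : ℤ) ∣ n * f.eval n)
    (q e : ℕ) (hq : Squarefree q)
    (he : ∀ p : ℕ, p.Prime → p ∣ q → ¬ (p : ℤ) ∣ (e : ℤ) * f.eval (e : ℤ))
    (u m : ℕ) (hu : 1 ≤ u) :
    ∃ (K R : ℕ) (δ : ℝ), 0 < δ ∧ ∀ S : Finset ℕ, K ≤ S.card → ∀ L w : ℕ, 1 ≤ w →
      ∃ B : ℕ, ∀ᶠ N : ℕ in atTop, ∀ c : ℕ, ∃ (s : ℕ) (G : Finset ℕ), s ∈ S ∧ 0 ∈ G ∧ m ≤ G.card ∧
        (∀ g ∈ G, s + g ∈ S) ∧ ∃ a d : ℕ, w ∣ d ∧ 1 ≤ d ∧ (d : ℝ) ≤ Real.log N ^ B ∧
        ∀ t < L, N < a + t * d ∧ a + t * d + (S.sup id - s) ≤ 2 * N ∧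
          (∀ y ≤ S.sup id - s, (a + t * d + y).Prime ↔ y ∈ G) ∧
          (∃ j : ℕ, j ≡ c [MOD u] ∧ Nat.nth Nat.Prime j = a + t * d) ∧
          ∀ g ∈ G, a + t * d + g ≡ e [MOD q] ∧
            AP R ((N : ℝ) ^ δ) (f.eval ((a + t * d + g : ℕ) : ℤ)) := by
  classical
  obtain ⟨K, R, δ, hδ, hmain⟩ := stringsCR f hz hadm q e hq he (u + m + 1)
  refine ⟨K, R, δ, hδ, fun S hS L w hw => ?_⟩
  obtain ⟨C, hC⟩ : ∃ C, C = S.sup id := ⟨_, rfl⟩
  obtain ⟨M, hM⟩ := vdw (L + 1) u
  obtain ⟨B, hB⟩ := hmain S hS (M * w + 1)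
  have hlogt : Tendsto (fun X : ℕ => Real.log (X : ℝ)) atTop atTop :=
    Real.tendsto_log_atTop.comp tendsto_natCast_atTop_atTop
  refine ⟨B + 1, ?_⟩
  filter_upwards [hB, hlogt.eventually_ge_atTop ((M * w : ℕ) : ℝ)] with N hN hNM
  intro c
  obtain ⟨H, hH, hHm, n, d, h3, h4, h5⟩ := hN
  rw [← hC] at h5 ⊢
  have hHC : ∀ h ∈ H, h ≤ C := fun h hh => by
    rw [hC]
    exact Finset.le_sup (f := id) (hH hh)
  obtain ⟨b, a, ha1, ha2, hab, ρ, hρ⟩ := hM (fun j => Nat.count Nat.Prime (n + j * (w * d)) % u)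
    (fun x => Nat.mod_lt _ hu)
  have hρu : ρ < u := by
    rw [← hρ 0 (by omega)]
    exact Nat.mod_lt _ hu
  obtain ⟨s, hs⟩ : ∃ s, s = (c + (u - ρ)) % u := ⟨_, rfl⟩
  have hsu : s < u := by
    rw [hs]
    exact Nat.mod_lt _ hu
  obtain ⟨s0, hs0⟩ : ∃ s0 : ℕ, s0 = Nat.nth (· ∈ H) s := ⟨_, rfl⟩
  -- all windows
  have hwin : ∀ t < L + 1, (b + t * a) * w < M * w + 1 := by
    intro t ht
    have := hab t ht
    have h7 : (b + t * a) * w ≤ M * w := Nat.mul_le_mul_right _ this
    omega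
  have hrw : ∀ t, n + (b + t * a) * (w * d) = n + ((b + t * a) * w) * d := by
    intro t
    ring
  have hfirst : ∀ t < L + 1, s0 ∈ H ∧
      Nat.nth Nat.Prime (Nat.count Nat.Prime (n + (b + t * a) * (w * d)) + s) =
        n + (b + t * a) * (w * d) + s0 := by
    intro t ht
    obtain ⟨-, -, g1, -⟩ := h5 ((b + t * a) * w) (hwin t ht)
    rw [hrw t, hs0]
    exact nth_window (n + ((b + t * a) * w) * d) C H hHC g1 s (by omega)
  have hs0H : s0 ∈ H := (hfirst 0 (by omega)).1
  have hs0C := hHC s0 hs0H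
  -- the elements of `H` from `s0` on
  obtain ⟨G, hG⟩ : ∃ G, G = (H.filter (fun h => s0 ≤ h)).image (fun h => h - s0) := ⟨_, rfl⟩
  have hmemG : ∀ y, y ∈ G ↔ y + s0 ∈ H := by
    intro y
    rw [hG, mem_image]
    constructor
    · rintro ⟨h, hh, rfl⟩
      rw [mem_filter] at hh
      have : h - s0 + s0 = h := by omega
      rw [this]
      exact hh.1
    · intro hy
      exact ⟨y + s0, mem_filter.2 ⟨hy, by omega⟩, by omega⟩
  have hlow : (H.filter (fun h => h < s0)).card ≤ s := by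
    have h7 : (H.filter (fun h => h < s0)).card = Nat.count (· ∈ H) s0 := by
      rw [Nat.count_eq_card_filter_range]
      congr 1
      ext y
      rw [mem_filter, mem_filter, mem_range]
      tauto
    rw [h7, hs0]
    refine (Nat.count_nth (fun hf => ?_)).le
    have h9 : hf.toFinset.card = H.card := by
      congr 1
      ext y
      rw [Set.Finite.mem_toFinset]
      exact Iff.rfl
    rw [h9]
    omega
  have hGc : m ≤ G.card := by
    have h7 : G.card = (H.filter (fun h => s0 ≤ h)).card := by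
      rw [hG]
      apply card_image_of_injOn
      intro x hx y hy hxy
      rw [mem_coe, mem_filter] at hx hy
      simp only at hxy
      omega
    have h8 : H.card = (H.filter (fun h => h < s0)).card +
        (H.filter (fun h => s0 ≤ h)).card := by
      rw [← card_filter_add_card_filter_not (s := H) (fun h => h < s0)]
      congr 2
      ext y
      rw [mem_filter, mem_filter, not_lt]
    omega
  refine ⟨s0, G, hH hs0H, (hmemG 0).2 (by rw [zero_add]; exact hs0H), hGc, fun g hg => ?_,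
    n + b * (w * d) + s0, a * (w * d), ?_, ?_, ?_, ?_⟩
  · rw [add_comm]
    exact hH ((hmemG g).1 hg)
  · exact ⟨a * d, by ring⟩
  · exact Nat.mul_pos ha1 (Nat.mul_pos hw h3)
  · push_cast
    rw [pow_succ']
    have h0 : (0 : ℝ) ≤ d := Nat.cast_nonneg d
    have h1 : (a : ℝ) * w ≤ Real.log N := by
      have h2 : a * w ≤ M * w := Nat.mul_le_mul_right _ ha2
      have : ((a * w : ℕ) : ℝ) ≤ ((M * w : ℕ) : ℝ) := by exact_mod_cast h2
      push_cast at this hNM
      linarith
    calc (a : ℝ) * (w * d) = (a * w) * d := by ring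
      _ ≤ Real.log N * Real.log N ^ B :=
        mul_le_mul h1 h4 h0 (le_trans (by positivity) h1)
  · intro t ht
    have e5 : n + b * (w * d) + s0 + t * (a * (w * d)) = n + (b + t * a) * (w * d) + s0 := by ring
    have e6 : n + (b + t * a) * (w * d) = n + ((b + t * a) * w) * d := hrw t
    obtain ⟨g0, g1, g2, g3⟩ := h5 ((b + t * a) * w) (hwin t (by omega))
    rw [← e6] at g0 g1 g2 g3
    rw [e5]
    refine ⟨by omega, by omega, fun y hy => ?_,
      ⟨Nat.count Nat.Prime (n + (b + t * a) * (w * d)) + s, ?_, (hfirst t (by omega)).2⟩, ?_⟩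
    · rw [hmemG, add_comm y s0, add_assoc]
      exact g2 (s0 + y) (by omega)
    · have e7 : Nat.count Nat.Prime (n + (b + t * a) * (w * d)) % u = ρ := hρ t (by omega)
      have e8 : Nat.count Nat.Prime (n + (b + t * a) * (w * d)) ≡ ρ [MOD u] := by
        show _ % u = ρ % u
        rw [e7, Nat.mod_eq_of_lt hρu]
      have e9 : s ≡ c + (u - ρ) [MOD u] := by
        rw [hs]
        exact Nat.mod_modEq _ _
      have e10 := e8.add e9
      have e11 : ρ + (c + (u - ρ)) = c + u := by omega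
      rw [e11] at e10
      exact e10.trans (by
        show (c + u) % u = c % u
        rw [Nat.add_mod_right])
    · intro g hg
      have h7 := (hmemG g).1 hg
      have h8 := g3 _ h7
      have e12 : n + (b + t * a) * (w * d) + (g + s0) = n + (b + t * a) * (w * d) + s0 + g := by
        omega
      rw [e12] at h8
      exact h8

end Pool.Agent.H961C1
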